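import Pool.Agent.H77AR.F2

/-!
# Aspherical manifolds whose fundamental group is an Artin group: all degrees above the middle

`Artin M` is the Artin group of the Coxeter matrix `M` (the entry `0` stands for `∞`), and `cs` below is the Coxeter
system of the Coxeter group `M.Group`. `HasL2Betti K k b`: the `k`-th `L²`-Betti number of the group `K` is `b`.

`SalvExact cs` says that the universal cover of the Salvetti complex of `M` is acyclic, that is, that the Artin group
satisfies the `K(π,1)`-conjecture: the chain complex with basis over `ℤ[Artin M]` the sets `σ` of generators which
generate a finite subgroup `W_σ` of the Coxeter group, in degree `card σ`, and with differential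
`e_σ ↦ ∑_{s ∈ σ} ± (∑_w (-1) ^ ℓ(w) w) e_{σ ∖ s}`, where `w` runs over the elements of `W_σ` without right descents in
`σ ∖ s`, lifted to the Artin group by reduced words, is exact in all positive degrees. This is a theorem for the Coxeter
matrices of finite type, of FC type, of affine type, of dimension two (in particular of large type), and for all graph
products of such.

`W` is a contractible Hausdorff topological manifold of dimension `n = finrank E`, with boundary and corners allowed (a
charted space over the model `H` of a model with corners `I`; no smoothness is assumed, neither of `W` nor of the action).
For a compact aspherical `n`-manifold with boundary one takes for `W` its universal cover.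
-/

set_option autoImplicit false

namespace Pool.Agent.Results.MP_8fe54c_gt.ArtinGroups

open Pool.Agent.Helper741 Pool.Agent.H77AR Pool.Agent.N496.CV

/-- An Artin group with acyclic universal cover of the Salvetti complex which acts properly discontinuously on a
contractible topological `n`-manifold has vanishing `L²`-Betti numbers in all degrees `k > n / 2`. -/
theorem result : ∀ (B : Type) [Fintype B] [LinearOrder B] (M : CoxeterMatrix B), SalvExact M.toCoxeterSystem →
    ∀ (E : Type) [NormedAddCommGroup E] [NormedSpace ℝ E] [FiniteDimensional ℝ E] (H : Type) [TopologicalSpace H]
    (_ : ModelWithCorners ℝ E H) (W : Type) [TopologicalSpace W] [T2Space W] [ChartedSpace H W] [ContractibleSpace W]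
    [MulAction (Artin M) W] [ContinuousConstSMul (Artin M) W] [ProperlyDiscontinuousSMul (Artin M) W] (k : ℕ),
    Module.finrank ℝ E < 2 * k → HasL2Betti (Artin M) k 0 := by
  intro B _ _ M hex E _ _ _ H _ I W _ _ _ _ _ _ _ k hk
  exact artin_main M.toCoxeterSystem hex I (W := W) hk

end Pool.Agent.Results.MP_8fe54c_gt.ArtinGroups
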