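import Pool.Agent.H77AR.F2
import Pool.Agent.H77AR.X3

/-!
# Aspherical manifolds whose fundamental group is an Artin group of FC type: all degrees above the middle

`Artin M` is the Artin group of the Coxeter matrix `M` (the entry `0` stands for `∞`): generators `s_i`, relations
`s_i s_j s_i ⋯ = s_j s_i s_j ⋯` with `M i j` factors on both sides. The matrix is of FC type if all sets `K` of
generators whose entries `M i j` are all finite generate a finite subgroup of the Coxeter group of `M`. Examples are
the right-angled Artin groups and the Artin groups of finite type (the braid groups among them).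
`HasL2Betti K k b`: the `k`-th `L²`-Betti number of the group `K` is `b`.

`W` is a contractible Hausdorff topological manifold of dimension `n = finrank E`, with boundary and corners allowed (a
charted space over the model `H` of a model with corners `I`; no smoothness is assumed, neither of `W` nor of the action).
For a compact aspherical `n`-manifold with boundary one takes for `W` its universal cover.
-/

set_option autoImplicit false

namespace Pool.Agent.Results.MP_8fe54c_gt.FCArtinGroups

open Pool.Agent.Helper741 Pool.Agent.H77AR Pool.Agent.N496.CV

/-- An Artin group of FC type which acts properly discontinuously on a contractible topological `n`-manifold has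
vanishing `L²`-Betti numbers in all degrees `k > n / 2`. -/
theorem result : ∀ (B : Type) [Fintype B] (M : CoxeterMatrix B),
    (∀ K : Set B, (∀ i ∈ K, ∀ j ∈ K, M i j ≠ 0) →
      (Subgroup.closure (M.toCoxeterSystem.simple '' K) : Set M.Group).Finite) →
    ∀ (E : Type) [NormedAddCommGroup E] [NormedSpace ℝ E] [FiniteDimensional ℝ E] (H : Type) [TopologicalSpace H]
    (_ : ModelWithCorners ℝ E H) (W : Type) [TopologicalSpace W] [T2Space W] [ChartedSpace H W] [ContractibleSpace W]
    [MulAction (Artin M) W] [ContinuousConstSMul (Artin M) W] [ProperlyDiscontinuousSMul (Artin M) W] (k : ℕ),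
    Module.finrank ℝ E < 2 * k → HasL2Betti (Artin M) k 0 := by
  intro B _ M hFC E _ _ _ H _ I W _ _ _ _ _ _ _ k hk
  classical
  obtain ⟨o⟩ : Nonempty (LinearOrder B) := ⟨LinearOrder.lift' (Fintype.equivFin B) (Fintype.equivFin B).injective⟩
  exact artin_main M.toCoxeterSystem (salvExact_fc M.toCoxeterSystem fun K hK => hFC (K : Set B) (by exact_mod_cast hK)) I
    (W := W) hk

end Pool.Agent.Results.MP_8fe54c_gt.FCArtinGroups
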