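import Pool.Agent.H77B.Main2
import Pool.Agent.H77B.EQV
import Pool.Agent.H77B.SHR
import Pool.Agent.H77B.INFPx
import Pool.Agent.H77B.VANS
import Pool.Agent.H77B.CYC
import Pool.Agent.H77B.HZR
import Pool.Agent.H77B.GRG
import Pool.Agent.H77B.KVG
import Pool.Agent.H77B.KVT
import Pool.Agent.H77B.PRD
import Pool.Agent.H77B.TRN
import Pool.Agent.H77B.DIC
import Pool.Agent.H77B.FGR
import Pool.Agent.H77B.PRO
import Pool.Agent.H77B.INJ
import Pool.Agent.H77B.VKJ
import Pool.Agent.H77B.RGO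
import Pool.Agent.H77B.SEPL
import Pool.Agent.H77B.PAO
import Pool.Agent.H77B.ACT

set_option autoImplicit false

namespace Pool.Agent.Results.MP_8fe54c_gt.GraphProductsStrongForm

open Pool.Agent.H77GP Pool.Agent.H77B

/-- Let `Q` be the graph product of groups `G v` over a finite graph `Γ`, each of which satisfies `TypeA` or `TypeC`.
Then for every `k` either the `k`-th `L²`-Betti number of `Q` is zero or `Q` has an obstructor of dimension `2 k` in the
sense of Bestvina, Kapovich and Kleiner.  Moreover, if `Q` acts properly discontinuously on a contractible Hausdorff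
manifold `W` (boundary and corners allowed) of dimension less than `2 k`, then the `k`-th `L²`-Betti number of `Q` is
zero. -/
theorem result : ∀ (V : Type) [Fintype V] (Γ : SimpleGraph V) (G : V → Type) [∀ v, Group (G v)],
    (∀ v, TypeA (G v) ∨ TypeC (G v)) →
    (∀ k, N496.CV.HasL2Betti (GP Γ G) k 0 ∨ Nob (GP Γ G) (2 * k)) ∧
    ∀ (E : Type) [NormedAddCommGroup E] [NormedSpace ℝ E] [FiniteDimensional ℝ E]
      (H : Type) [TopologicalSpace H] (_I : ModelWithCorners ℝ E H)
      (W : Type) [TopologicalSpace W] [T2Space W] [ChartedSpace H W] [ContractibleSpace W]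
      [MulAction (GP Γ G) W] [ContinuousConstSMul (GP Γ G) W] [ProperlyDiscontinuousSMul (GP Γ G) W] (k : ℕ),
      Module.finrank ℝ E < 2 * k → N496.CV.HasL2Betti (GP Γ G) k 0 := by
  intro V _ Γ G _ hG
  refine ⟨fun k => ?_, ?_⟩
  · exact main2_of EQV.t SHR.t INFPx.t (VANS.t INFPx.t) CYC.t HZR.t GRG.t KVG.t KVT.t PRD.t TRN.t DIC.t FGR.t PRO.t
      INJ.t VKJ.t RGO.t SEPL.t PAO.t Γ G hG k
  · intro E _ _ _ H _ I W _ _ _ _ _ _ _ k hk
    exact main3_of EQV.t SHR.t INFPx.t (VANS.t INFPx.t) CYC.t HZR.t GRG.t KVG.t KVT.t PRD.t TRN.t DIC.t FGR.t PRO.t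
      INJ.t VKJ.t RGO.t SEPL.t PAO.t ACT.t Γ G hG I (W := W) hk

end Pool.Agent.Results.MP_8fe54c_gt.GraphProductsStrongForm
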