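import Pool.Agent.H77N.Asm
import Pool.Agent.H77N.ALG
import Pool.Agent.H77N.LIN
import Pool.Agent.H77N.MOD
import Pool.Agent.H77N.SHA
import Pool.Agent.H77N.RAG
import Pool.Agent.H77N.TOR
import Pool.Agent.H77N.GEO

set_option autoImplicit false

namespace Pool.Agent.Results.MP_8fe54c_gt.SubgroupsOfRAAGs

open Finset Pool.Agent.W326.DU Pool.Agent.H77N

/-- Let `A` be the right-angled Artin group of a finite graph `G`, `N` a subgroup of `A` and `k` an integer.  Suppose
that `H_{k-1}(Lk τ; ℚ) = 0` (reduced) for all cliques `τ` (the empty one allowed) such that for some vertex `u`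
adjacent to all vertices of `τ` a conjugate of the subgroup generated by `τ` and `u` meets `N` trivially; here `Lk τ`
is the complex of the cliques of common neighbours of `τ`.  If `N` acts properly discontinuously on a contractible
Hausdorff manifold `W` (boundary and corners allowed) of dimension less than `2 k`, then the `k`-th `L²`-Betti number
of `N` is zero. -/
theorem result : ∀ (V : Type) [Fintype V] [LinearOrder V] (G : SimpleGraph V) (N : Subgroup (RAAG G.Adj)) (k : ℕ),
    (∀ (g : RAAG G.Adj) (τ : Finset V) (u : V), u ∉ τ → G.IsClique (insert u (τ : Set V)) →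
      (∀ t ∈ para G (insert u (τ : Set V)), g * t * g⁻¹ ∈ N → t = 1) → QEx G (lk G τ) k) →
    ∀ (E : Type) [NormedAddCommGroup E] [NormedSpace ℝ E] [FiniteDimensional ℝ E]
      (H : Type) [TopologicalSpace H] (_I : ModelWithCorners ℝ E H)
      (W : Type) [TopologicalSpace W] [T2Space W] [ChartedSpace H W] [ContractibleSpace W]
      [MulAction N W] [ContinuousConstSMul N W] [ProperlyDiscontinuousSMul N W],
      Module.finrank ℝ E < 2 * k → N496.CV.HasL2Betti N k 0 := by
  intro V _ _ G N k hC E _ _ _ H _ I W _ _ _ _ _ _ _ hk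
  exact main_of ALG.t LIN.t MOD.t SHA.t RAG.t TOR.t GEO.t G N k hC I (W := W) hk

end Pool.Agent.Results.MP_8fe54c_gt.SubgroupsOfRAAGs
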